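import Pool.Agent.R827.Pol3

/-!
# A negative answer to R. Pol's question under the continuum hypothesis

The continuum hypothesis (in fact already the existence of `ω₁` fat subtrees of the binary tree no
uncountably many of which have a common branch, i.e. the failure of precaliber `ω₁` for the
Lebesgue measure algebra) implies that there is a Fréchet-Urysohn compactum `X`, a point `x` and a
set `A` of uniform averages of finitely many Dirac measures, such that the Dirac measure at `x` is
in the closure of `A` but not in the closure of any countable subset of `A`.

The points of `X` are the subsets `Γ(s) ∖ Δ` of `ω₁`, where `s` is a finite binary sequence of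
length `n`, `Γ(s)` is the set of the trees containing `s` and `|Δ| ≤ n + 1`, and all subsets of the
(countable) sets `Γ(y)`, `y` an infinite binary sequence; the point `x` is the empty set.
-/

set_option autoImplicit false

namespace Pool.Agent.Results.MP_aebb62_gt.ConsistentlyNo

open Set Topology Filter MeasureTheory
open Pool.Agent.Helper732.HN.ForceCH (OmegaOnePreserved CHHolds)
open Pool.Agent.R827.Pol (CH FatTrees avg diracPM)

/-- `X` has countable tightness. -/
def CountablyTight (X : Type) [TopologicalSpace X] : Prop :=
  ∀ (S : Set X) (y : X), y ∈ closure S → ∃ T ⊆ S, T.Countable ∧ y ∈ closure T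

/-- There is a compact Hausdorff Fréchet-Urysohn (in particular countably tight) space `X`, a point
`x` of `X` and a set `A` of averages of finitely many Dirac measures such that the Dirac measure at
`x` is in the closure of `A`, but not in the closure of any countable subset of `A`. -/
def Counterexample : Prop :=
  ∃ (X : Type) (_ : TopologicalSpace X) (_ : CompactSpace X) (_ : T2Space X)
    (_ : MeasurableSpace X) (_ : BorelSpace X),
    FrechetUrysohnSpace X ∧ CountablyTight X ∧
    ∃ (x : X) (A : Set (ProbabilityMeasure X)),
      (∀ μ ∈ A, ∃ (n : ℕ) (f : (Fin n → Bool) → X), (μ : Measure X) = avg n f) ∧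
      diracPM x ∈ closure A ∧ ∀ B ⊆ A, B.Countable → diracPM x ∉ closure B

theorem countablyTight_of_frechetUrysohn (X : Type) [TopologicalSpace X]
    [FrechetUrysohnSpace X] : CountablyTight X := by
  intro S y hy
  obtain ⟨u, hu, hut⟩ := mem_closure_iff_seq_limit.1 hy
  exact ⟨range u, range_subset_iff.2 hu, countable_range u,
    mem_closure_of_tendsto hut (Eventually.of_forall fun n => mem_range_self n)⟩

/-- **Main theorem.**  Some notion of forcing forces the continuum hypothesis over any ground model,
the continuum hypothesis implies the hypothesis `FatTrees`, and `FatTrees` implies that there is a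
counterexample to the statement in R. Pol's question. -/
theorem result :
    (∃ (P : Type) (_ : Preorder P), Nonempty P ∧ ∀ p : P,
      p ∈ OmegaOnePreserved P ∧ p ∈ CHHolds P) ∧
    (CH → FatTrees) ∧ (FatTrees → Counterexample) := by
  refine ⟨?_, Pool.Agent.R827.Pol.fatTrees_of_ch, fun h => ?_⟩
  · obtain ⟨P, hP, hne, h⟩ := Pool.Agent.Helper732.HN.ForceCH.exists_forcing
    exact ⟨P, hP, hne, fun p => ⟨(h p).1, (h p).2.2⟩⟩
  · obtain ⟨X, h1, h2, h3, h4, h5, h6, h7⟩ := Pool.Agent.R827.Pol.main h
    exact ⟨X, h1, h2, h3, h4, h5, h6, countablyTight_of_frechetUrysohn X, h7⟩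

end Pool.Agent.Results.MP_aebb62_gt.ConsistentlyNo
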